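import Pool.Agent.Results.MP_070445_nt.LargeUnits
import Pool.Agent.U513.AP.ExpSave

/-!
# Large fundamental units near the numerators and denominators of Diophantine approximations

The starting file bounds the number of the positive fundamental discriminants `D ≤ N` with a fundamental unit which is not large. Here:
for all points `α` outside of a set of Hausdorff measure zero in the dimension `(d + 1) / (1 + τ)`, ALL fundamental discriminants near
integral affine forms at ALL approximations of `α` with a large denominator have a large fundamental unit.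
-/

set_option autoImplicit false

open Finset Filter MeasureTheory

namespace Pool.Agent.Results.MP_070445_nt.Approximations

open Pool.Agent.U513.AP
open Pool.Agent.Results.MP_070445_nt.LargeUnits (Fundamental UnitAtMost)

/-- Let `0 < δ < 1 / 2`. For all `d`, `τ ≥ 0` and `γ` there is a set `E` of Hausdorff measure zero in the dimension `(d + 1) / (1 + τ)`
(of Lebesgue measure zero if `d τ ≥ 1`) such that for all `α ∉ E`, all `W` and all the integral affine forms `c + a k + ∑ b_i u_i` with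
`(a, b) ≠ 0`, for all large `k` and all integral `u` with `|k α_i - γ_i - u_i| ≤ k ^ (-τ)`: ALL fundamental discriminants `D ≥ 1` with
`|D - (c + a k + ∑ b_i u_i)| ≤ (log k) ^ W` have a fundamental unit larger than `exp ((log D) ^ (3 / 2 - δ))`. -/
theorem result (δ : ℝ) (hδ : 0 < δ) (hδ2 : δ < 1 / 2) (d : ℕ) (τ : ℝ) (hτ : 0 ≤ τ) (γ : Fin d → ℝ) :
    ∃ E : Set (Fin d → ℝ), μH[((d : ℝ) + 1) / (1 + τ)] E = 0 ∧ (1 ≤ d * τ → volume E = 0) ∧
      ∀ α, α ∉ E → ∀ (W : ℕ) (c a : ℤ) (b : Fin d → ℤ), ¬ (a = 0 ∧ b = 0) → ∀ᶠ k : ℕ in atTop, ∀ u : Fin d → ℤ,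
        (∀ i, |(k : ℝ) * α i - γ i - u i| ≤ (k : ℝ) ^ (-τ)) → ∀ D : ℕ, 1 ≤ D → Fundamental D →
          |(D : ℝ) - (c + a * k + ∑ i, b i * u i : ℤ)| ≤ Real.log k ^ W →
            ¬ UnitAtMost D (Real.exp (Real.log D ^ (3 / 2 - δ))) := by
  classical
  obtain ⟨M, hM⟩ := (LargeUnits.result δ hδ hδ2).1
  obtain ⟨B, hB⟩ : ∃ B : Set ℕ, B = {D : ℕ | Fundamental D ∧ UnitAtMost D (Real.exp (Real.log D ^ (3 / 2 - δ)))} := ⟨_, rfl⟩
  have hF : ∀ A : ℕ, FewLog B A := by
    refine fewLog_exp (c := 1) (s := δ / 8) (M := M) one_pos (by positivity) 2 fun X hX => ?_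
    rw [one_mul]
    refine le_trans (Nat.cast_le.2 (Set.ncard_le_ncard ?_ ?_)) (hM X hX)
    · rintro D ⟨hD, h1, h2⟩
      rw [hB] at hD
      obtain ⟨hD1, t, u, ht, hu, heq, hle⟩ := hD
      refine ⟨h1, h2, hD1, t, u, ht, hu, heq, hle.trans (Real.exp_le_exp.2 ?_)⟩
      have hD1' : (1 : ℝ) ≤ D := by exact_mod_cast h1
      exact Real.rpow_le_rpow (Real.log_nonneg hD1') (Real.log_le_log (by linarith) (by exact_mod_cast h2)) (by linarith)
    · exact (Set.finite_Iic X).subset fun D hD => hD.2.1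
  obtain ⟨E, e1, e2, e3⟩ := null_forms_all hF hτ γ
  refine ⟨E, e1, e2, fun α hα W c a b hab => ?_⟩
  filter_upwards [e3 α hα W c a b hab] with k hk u hu D hD hFD hle hun
  exact hk u hu D (by rw [hB]; exact ⟨hFD, hun⟩) hD hle

end Pool.Agent.Results.MP_070445_nt.Approximations
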